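import Pool.Agent.Y466.FT.Fam

/-!
# Families of knots with powers of arbitrary braids
-/

set_option autoImplicit false

namespace Pool.Agent.N518.VL

open Pool.Agent.H835R2 Pool.Agent.H835R2.Knot Pool.Agent.H835R2.Flat Pool.Agent.Y466 Pool.Agent.Y466.FT

/-! ### The permutation of a braid word has finite order -/

theorem perm_cons (l : Bool × ℕ) (w : Braid) :
    perm (l :: w) = Equiv.swap l.2 (l.2 + 1) * perm w := by
  simp [perm]

theorem perm_append (w w' : Braid) : perm (w ++ w') = perm w * perm w' := by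
  simp [perm]

theorem perm_fix {m : ℕ} {w : Braid} (hw : ∀ l ∈ w, l.2 + 1 < m) {x : ℕ} (hx : m ≤ x) :
    perm w x = x := by
  induction w with
  | nil => rfl
  | cons l w ih =>
    rw [perm_cons, Equiv.Perm.mul_apply, ih (fun l hl => hw l (List.mem_cons_of_mem _ hl))]
    have := hw l List.mem_cons_self
    exact Equiv.swap_apply_of_ne_of_ne (by omega) (by omega)

theorem fix_pow {m : ℕ} {σ : Equiv.Perm ℕ} (h : ∀ x, m ≤ x → σ x = x) :
    σ ^ (m.factorial) = 1 := by
  classical
  have h1 : ∀ x, x < m ↔ σ x < m := by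
    intro x
    constructor
    · intro hx
      by_contra h2
      have h3 := h (σ x) (by omega)
      have h4 := σ.injective h3
      omega
    · intro hx
      by_contra h2
      have h3 := h x (by omega)
      omega
  have h1' : ∀ x, σ x < m ↔ x < m := fun x => (h1 x).symm
  set τ : Equiv.Perm {x : ℕ // x < m} := σ.subtypePerm h1' with hτ
  have : Fintype {x : ℕ // x < m} := Fintype.ofEquiv _ Fin.equivSubtype
  have hc : Fintype.card (Equiv.Perm {x : ℕ // x < m}) = m.factorial := by
    rw [Fintype.card_perm, Fintype.card_congr (Fin.equivSubtype (n := m)).symm, Fintype.card_fin]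
  have h2 : τ ^ (m.factorial) = 1 := by
    rw [← hc]
    exact pow_card_eq_one
  ext x
  by_cases hx : x < m
  · have h3 : τ ^ (m.factorial) = _ := Equiv.Perm.subtypePerm_pow σ (m.factorial) h1'
    have h4 := congrArg (fun ρ : Equiv.Perm {x : ℕ // x < m} => ((ρ ⟨x, hx⟩ : {x // x < m}) : ℕ)) h3
    simp only [h2] at h4
    exact h4.symm
  · have h3 : ∀ n : ℕ, (σ ^ n) x = x := by
      intro n
      induction n with
      | zero => rfl
      | succ n ih => rw [pow_succ, Equiv.Perm.mul_apply, h x (by omega), ih]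
    rw [h3]
    rfl

theorem perm_pow_one {m : ℕ} {w : Braid} (hw : ∀ l ∈ w, l.2 + 1 < m) :
    perm w ^ (m.factorial) = 1 :=
  fix_pow fun _ hx => perm_fix hw hx

/-- The word `w` repeated `r` times. -/
def rep (r : ℕ) (w : Braid) : Braid := (List.replicate r w).flatten

theorem rep_succ (r : ℕ) (w : Braid) : rep (r + 1) w = w ++ rep r w := by
  simp [rep, List.replicate_succ]

theorem perm_rep (r : ℕ) (w : Braid) : perm (rep r w) = perm w ^ r := by
  induction r with
  | zero => simp [rep, perm]
  | succ r ih => rw [rep_succ, perm_append, ih, pow_succ']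

theorem mem_rep {r : ℕ} {w : Braid} {l : Bool × ℕ} (h : l ∈ rep r w) : l ∈ w := by
  unfold rep at h
  obtain ⟨x, hx, hl⟩ := List.mem_flatten.1 h
  rw [List.eq_of_mem_replicate hx] at hl
  exact hl

/-! ### Powers along residue classes -/

section
variable {k : ℕ} {m : Fin k → ℕ}

theorem cl_pow_add {c : Con (Fin k → FreeMonoid (Bool × ℕ))} (hR : ∀ r ∈ RS m, c r.1 r.2)
    {j : Fin k} {w : Braid} (hw : ∀ l ∈ w, l.2 + 1 < m j) (r : ℕ) (q : ℤ) :
    cl c j (FreeMonoid.ofList (rep r w) * FreeMonoid.ofList (pow w q)) =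
      cl c j (FreeMonoid.ofList (pow w (q + r))) := by
  induction r with
  | zero =>
    have : FreeMonoid.ofList (rep 0 w) = 1 := rfl
    rw [this, one_mul]
    simp
  | succ r ih =>
    rw [rep_succ, FreeMonoid.ofList_append, mul_assoc, map_mul, ih, ← map_mul,
      pow_add_one hR hw]
    congr 3
    push_cast
    ring

theorem pw_step_res {c : Con (Fin k → FreeMonoid (Bool × ℕ))} (hR : ∀ r ∈ RS m, c r.1 r.2)
    {w : Fin k → Braid} (hw : ∀ j, ∀ l ∈ w j, l.2 + 1 < m j) (r : ℕ) (q q' : Fin k → ℤ) (j : Fin k)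
    (h1 : q' j = q j + r) (h2 : ∀ i, i ≠ j → q' i = q i) :
    c (Pi.mulSingle j (FreeMonoid.ofList (rep r (w j))) * FT.pw w q) (FT.pw w q') := by
  rw [split_single (FT.pw w q) j, split_single (FT.pw w q') j, ← mul_assoc, ← Pi.mulSingle_mul]
  refine c.mul ?_ ?_
  · refine cl_eq.1 ?_
    have := cl_pow_add hR (hw j) r (q j)
    rw [show (FT.pw w q') j = FreeMonoid.ofList (pow (w j) (q j + r)) by simp [FT.pw, h1]]
    exact this
  · have : Function.update (FT.pw w q) j 1 = Function.update (FT.pw w q') j 1 := by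
      funext i
      by_cases h : i = j
      · subst h; simp
      · rw [Function.update_of_ne h, Function.update_of_ne h]
        simp [FT.pw, h2 i h]
    rw [this]
    exact c.refl _

/-- The exponents `r q + s`. -/
def cls (r : ℕ) (s q : Fin k → ℤ) : Fin k → ℤ := fun j => r * q j + s j

theorem pd_res {A : Type*} [AddCommGroup A] {n : ℕ} {φ : (Fin k → FreeMonoid (Bool × ℕ)) → A}
    (hd : Dg (ES m) n φ) (hi : Iv (RS m) φ) {w : Fin k → Braid}
    (hw : ∀ j, ∀ l ∈ w j, l.2 + 1 < m j) {r : ℕ} (hp : ∀ j, perm (w j) ^ r = 1) (s : Fin k → ℤ) :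
    PD n (fun q => φ (pw w (cls r s q))) := by
  induction n generalizing φ with
  | zero => intro q; exact hd _
  | succ n ih =>
    intro j
    have hw' : ∀ l ∈ rep r (w j), l.2 + 1 < m j := fun l hl => hw j l (mem_rep hl)
    have hp' : IsPure (rep r (w j)) := by
      unfold IsPure
      rw [perm_rep]
      exact hp j
    have h1 := ih (hd.tr hi (pu hw' hp')) (hi.tr _)
    have e : dl j (fun q => φ (pw w (cls r s q))) =
        fun q => Tr (Pi.mulSingle j (FreeMonoid.ofList (rep r (w j)))) φ (pw w (cls r s q)) := by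
      funext q
      have h2 := pw_step_res (c := cphi φ) (fun r hr => hi r hr) hw r (cls r s q)
        (cls r s (q + Pi.single j 1)) j (by simp [cls]; ring) (fun i hi => by simp [cls, hi]) 1 1
      simp only [one_mul, mul_one] at h2
      show φ _ - φ _ = φ _ - φ _
      rw [h2]
    rw [e]
    exact h1

end

/-! ### Families -/

section
variable {k : ℕ} {u₀ : Word} {u : Fin k → Word} {w : Fin k → Braid}

/-- The knots of a residue class. -/
theorem fam_res (hw : ∀ j, ∀ l ∈ w j, l.2 + 1 < wd u₀ u j) {r : ℕ} (hp : ∀ j, perm (w j) ^ r = 1)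
    {s q₀ : Fin k → ℤ} (h : IsKnot (family u₀ w u (cls r s q₀))) :
    Fam (fun q => family u₀ w u (cls r s q)) := by
  have h1 : ∀ q, IsKnot (family u₀ w u (cls r s q)) := by
    intro q
    have hd : DegreeLE 0 (fun _ : Word => (1 : ℤ)) := by
      intro D _ S _ hS
      obtain ⟨x, rfl⟩ := Finset.card_eq_one.1 (by simpa using hS)
      rw [show ({x} : Finset ℕ).powerset = {∅, {x}} from rfl]
      rw [Finset.sum_pair (by simp)]
      simp
    have h2 := pd_res (dg_phi u₀ u hd) (iv_phi u₀ u (fun _ _ _ _ => rfl)) hw hp s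
    have h3 := PD.const h2 q q₀
    by_contra hq
    have e1 : phi u₀ u (fun _ => (1 : ℤ)) (pw w (cls r s q₀)) = 1 := if_pos h
    have e2 : phi u₀ u (fun _ => (1 : ℤ)) (pw w (cls r s q)) = 0 := if_neg hq
    simp only [e1, e2] at h3
    exact absurd h3 (by norm_num)
  refine ⟨h1, fun {A} _ n v hv hn => ?_⟩
  have h2 := pd_res (dg_phi u₀ u hn) (iv_phi u₀ u hv) hw hp s
  have e : (fun q => v (family u₀ w u (cls r s q))) =
      fun q => phi u₀ u v (pw w (cls r s q)) := by
    funext q
    exact (if_pos (h1 q)).symm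
  rw [e]
  exact h2

/-- The letters of the powers are on the strands. -/
theorem letters_pow {q : Fin k → ℤ} (h : IsKnot (family u₀ w u q)) (j : Fin k) :
    ∀ l ∈ pow (w j) (q j), l.2 + 1 < wd u₀ u j := by
  rw [family_eq, split_single (pw w q) j] at h
  obtain ⟨y, hy⟩ := plug_single u₀ u piece 1 (Function.update (pw w q) j 1) j
  have h1 := hy (pw w q j)
  rw [one_mul] at h1
  rw [h1] at h
  have h2 := h.1.1
  rw [fits_append, fits_append] at h2
  have h3 := h2.1.2
  have e : (pw w q j).toList.map piece = draw (pow (w j) (q j)) := rfl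
  rw [e] at h3
  have h4 := of_fits_draw h3
  intro l hl
  refine lt_of_lt_of_eq (h4 l hl) ?_
  rw [run_n]
  exact wdt_above u₀ u _ j _

theorem mem_pow {v : Braid} {l : Bool × ℕ} (hl : l ∈ v) {n : ℤ} (hn : n ≠ 0) :
    ∃ l' ∈ pow v n, l'.2 = l.2 := by
  cases n with
  | ofNat n =>
    cases n with
    | zero => exact absurd rfl hn
    | succ n =>
      refine ⟨l, ?_, rfl⟩
      show l ∈ (List.replicate (n + 1) v).flatten
      rw [List.replicate_succ, List.flatten_cons]
      exact List.mem_append_left _ hl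
  | negSucc n =>
    refine ⟨(!l.1, l.2), ?_, rfl⟩
    show _ ∈ (List.replicate (n + 1) (inv v)).flatten
    rw [List.replicate_succ, List.flatten_cons]
    refine List.mem_append_left _ ?_
    unfold inv
    rw [List.mem_reverse]
    exact List.mem_map.2 ⟨l, hl, rfl⟩

open Classical in
/-- The braid words which are on the strands. -/
noncomputable def fitw (u₀ : Word) (w : Fin k → Braid) (u : Fin k → Word) : Fin k → Braid :=
  fun j => if ∀ l ∈ w j, l.2 + 1 < wd u₀ u j then w j else []

theorem fitw_fits (j : Fin k) : ∀ l ∈ fitw u₀ w u j, l.2 + 1 < wd u₀ u j := by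
  unfold fitw
  split_ifs with h
  · exact h
  · intro l hl
    exact absurd hl (by simp)

theorem pow_nil (n : ℤ) : pow [] n = [] := by
  cases n with
  | ofNat n =>
    show (List.replicate n ([] : Braid)).flatten = []
    simp
  | negSucc n =>
    show (List.replicate (n + 1) (inv [])).flatten = []
    simp [inv]

theorem family_fit {q : Fin k → ℤ} (h : IsKnot (family u₀ w u q)) :
    family u₀ w u q = family u₀ (fitw u₀ w u) u q := by
  have h1 : ∀ j, pow (w j) (q j) = pow (fitw u₀ w u j) (q j) := by
    intro j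
    unfold fitw
    split_ifs with h2
    · rfl
    · rw [pow_nil]
      have h3 : q j = 0 := by
        by_contra h4
        refine h2 fun l hl => ?_
        obtain ⟨l', hl', e⟩ := mem_pow hl h4
        rw [← e]
        exact letters_pow h j l' hl'
      rw [h3]
      rfl
  unfold family
  congr 3
  funext j
  rw [h1]

end

end Pool.Agent.N518.VL
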