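import Pool.Agent.N518.VL.Pow

/-!
# Coincidences
-/

set_option autoImplicit false

namespace Pool.Agent.N518.VL

open Pool.Agent.H835R2 Pool.Agent.H835R2.Knot Pool.Agent.H835R2.Flat Pool.Agent.Y466
  Pool.Agent.Y466.FT

section
variable {k : ℕ} {u₀ : Word} {w : Fin k → Braid} {u : Fin k → Word}

theorem fits_of_ne {s : Fin k → ℤ} (hs : ∀ j, s j ≠ 0) (h : IsKnot (family u₀ w u s)) (j : Fin k) :
    ∀ l ∈ w j, l.2 + 1 < wd u₀ u j := by
  intro l hl
  obtain ⟨l', hl', e⟩ := mem_pow hl (hs j)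
  rw [← e]
  exact letters_pow h j l' hl'

theorem fam_ne {t : ℕ} (ht : plen u₀ w u ≤ t) {s : Fin k → ℤ} (hs : ∀ j, s j ≠ 0)
    (h : IsKnot (family u₀ w u s)) : Fam (fun q => family u₀ w u (cls (modulus t) s q)) := by
  have hp : ∀ j, perm (w j) ^ modulus t = 1 := fun j => perm_pow_one fun l hl => by
    have h1 := fits_of_ne hs h j l hl
    have h2 := wd_le (u₀ := u₀) (w := w) (u := u) j
    omega
  refine fam_res (fits_of_ne hs h) hp (q₀ := 0) ?_
  have e : cls (modulus t) s 0 = s := by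
    funext j
    simp [cls]
  rw [e]
  exact h

end

theorem torsionFree_real : TorsionFree ℝ := by
  intro n a hn h
  rw [nsmul_eq_mul] at h
  rcases mul_eq_zero.1 h with h | h
  · exact absurd (Nat.cast_eq_zero.1 h) hn
  · exact h

theorem not_sep {n : ℕ} {D E : Word} :
    ¬ Separated n D E ↔ ∀ v : Word → ℚ, IsInvariant v → DegreeLE n v → v D = v E := by
  unfold Separated
  push Not
  rfl

end Pool.Agent.N518.VL
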