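import Pool.Agent.N518.VL.Base

/-!
# One real valued Vassiliev invariant
-/

set_option autoImplicit false

namespace Pool.Agent.N518.VL

open Pool.Agent.H835R2 Pool.Agent.H835R2.Knot Pool.Agent.Y466 Pool.Agent.Y466.FT

/-! ### Finitely many rational valued invariants -/

/-- The parameters of two families as a point. -/
def pt {k k' : ℕ} (q : Fin k → ℤ) (q' : Fin k' → ℤ) : Fin k ⊕ Fin k' → ℚ :=
  Sum.elim (fun i => (q i : ℚ)) fun i => (q' i : ℚ)

theorem fin_pair {k k' : ℕ} {D : (Fin k → ℤ) → Word} {D' : (Fin k' → ℤ) → Word} (hD : Fam D)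
    (hD' : Fam D') : ∃ T : Finset (Word → ℚ), (∀ v ∈ T, IsInvariant v ∧ ∃ n, DegreeLE n v) ∧
      ∀ q q', (∀ v ∈ T, v (D q) = v (D' q')) →
        ∀ n (v : Word → ℚ), IsInvariant v → DegreeLE n v → v (D q) = v (D' q') := by
  classical
  set S : Set (MvPolynomial (Fin k ⊕ Fin k') ℚ) := {R | ∃ v : Word → ℚ, IsInvariant v ∧
    (∃ n, DegreeLE n v) ∧ ∀ q q', MvPolynomial.eval (pt q q') R = v (D q) - v (D' q')} with hS
  have hfg : (Submodule.span (MvPolynomial (Fin k ⊕ Fin k') ℚ) S).FG := IsNoetherian.noetherian _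
  obtain ⟨T, hT, hT'⟩ := (Submodule.fg_span_iff_fg_span_finset_subset _).1 hfg
  have h1 : ∀ t ∈ T, ∃ v : Word → ℚ, IsInvariant v ∧ (∃ n, DegreeLE n v) ∧
      ∀ q q', MvPolynomial.eval (pt q q') t = v (D q) - v (D' q') := fun t ht => hT ht
  choose! f hf1 hf2 hf3 using h1
  refine ⟨T.image f, fun v hv => ?_, fun q q' h n v hv hn => ?_⟩
  · obtain ⟨t, ht, rfl⟩ := Finset.mem_image.1 hv
    exact ⟨hf1 t ht, hf2 t ht⟩
  · obtain ⟨R, _, hR⟩ := poly_pair hD hD' hv hn
    have h2 : Submodule.span (MvPolynomial (Fin k ⊕ Fin k') ℚ)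
        (T : Set (MvPolynomial (Fin k ⊕ Fin k') ℚ)) ≤
        RingHom.ker (MvPolynomial.eval (pt q q')) := Submodule.span_le.2 fun t ht => by
      have h3 := hf3 t ht q q'
      rw [h (f t) (Finset.mem_image_of_mem f ht), sub_self] at h3
      exact h3
    have h5 : R ∈ Submodule.span (MvPolynomial (Fin k ⊕ Fin k') ℚ) S :=
      Submodule.subset_span ⟨v, hv, ⟨n, hn⟩, hR⟩
    rw [hT'] at h5
    have h6 : MvPolynomial.eval (pt q q') R = 0 := h2 h5
    rw [show MvPolynomial.eval (pt q q') R = v (D q) - v (D' q') from hR q q'] at h6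
    exact sub_eq_zero.1 h6

/-! ### Combining them -/

theorem exists_indep (n : ℕ) : ∃ c : Fin n → ℝ, LinearIndependent ℚ c := by
  refine exists_linearIndependent_of_le_rank ?_
  rw [Real.rank_rat_real]
  exact (Cardinal.natCast_lt_aleph0.trans Cardinal.aleph0_lt_continuum).le

theorem degree_real {n : ℕ} {v : Word → ℚ} (h : DegreeLE n v) (c : ℝ) :
    DegreeLE n (fun D => c * (v D : ℝ)) := by
  intro D hD S hS hc
  have h1 := h D hD S hS hc
  have h2 : ∑ T ∈ S.powerset, (-1 : ℤ) ^ T.card • (c * (v (switchAt T D) : ℝ)) =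
      c * ((∑ T ∈ S.powerset, (-1 : ℤ) ^ T.card • v (switchAt T D) : ℚ) : ℝ) := by
    rw [Rat.cast_sum, Finset.mul_sum]
    refine Finset.sum_congr rfl fun T _ => ?_
    rw [zsmul_eq_mul, zsmul_eq_mul]
    push_cast
    ring
  rw [h2, h1]
  simp

theorem degree_sum {ι A : Type} [AddCommGroup A] {n : ℕ} {s : Finset ι} {v : ι → Word → A}
    (h : ∀ i ∈ s, DegreeLE n (v i)) : DegreeLE n (fun D => ∑ i ∈ s, v i D) := by
  intro D hD S hS hc
  simp only [Finset.smul_sum]
  rw [Finset.sum_comm]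
  exact Finset.sum_eq_zero fun i hi => h i hi D hD S hS hc

theorem degree_comp {A B : Type} [AddCommGroup A] [AddCommGroup B] {n : ℕ} {v : Word → A}
    (h : DegreeLE n v) (f : A →+ B) : DegreeLE n (fun D => f (v D)) := by
  intro D hD S hS hc
  have h1 := congrArg f (h D hD S hS hc)
  rw [map_sum, map_zero] at h1
  rw [← h1]
  exact Finset.sum_congr rfl fun T _ => (map_zsmul f _ _).symm

theorem combine (T : Finset (Word → ℚ)) (hT : ∀ v ∈ T, IsInvariant v ∧ ∃ n, DegreeLE n v) :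
    ∃ (d : ℕ) (V : Word → ℝ), IsInvariant V ∧ DegreeLE d V ∧ (∀ v ∈ T, DegreeLE d v) ∧
      ∀ D E, V D = V E ↔ ∀ v ∈ T, v D = v E := by
  classical
  have h1 : ∀ v ∈ T, ∃ n, DegreeLE n v := fun v hv => (hT v hv).2
  choose! N hN using h1
  obtain ⟨c, hc⟩ := exists_indep (Fintype.card T)
  set e := Fintype.equivFin T with he
  have hc' : LinearIndependent ℚ (fun v : T => c (e v)) := hc.comp e e.injective
  have hd : ∀ v ∈ T, DegreeLE (T.sup N) v := fun v hv =>
    DegreeLE.mono (Finset.le_sup hv) (hN v hv)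
  refine ⟨T.sup N, fun D => ∑ v : T, c (e v) * (v.1 D : ℝ), ?_, ?_, hd, fun D E => ⟨fun h => ?_,
    fun h => ?_⟩⟩
  · intro D E hD hi
    refine Finset.sum_congr rfl fun v _ => ?_
    rw [(hT v.1 v.2).1 D E hD hi]
  · exact degree_sum fun v _ => degree_real (hd v.1 v.2) _
  · have h2 : ∑ v : T, (v.1 D - v.1 E) • c (e v) = 0 := by
      rw [← sub_eq_zero, ← Finset.sum_sub_distrib] at h
      rw [← h]
      refine Finset.sum_congr rfl fun v _ => ?_
      rw [Rat.smul_def]
      push_cast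
      ring
    have h3 := Fintype.linearIndependent_iff.1 hc' (fun v => v.1 D - v.1 E) h2
    intro v hv
    exact sub_eq_zero.1 (h3 ⟨v, hv⟩)
  · refine Finset.sum_congr rfl fun v _ => ?_
    rw [h v.1 v.2]

/-! ### Torsion-free groups -/

/-- There is no torsion. -/
def TorsionFree (A : Type) [AddCommGroup A] : Prop := ∀ (n : ℕ) (a : A), n ≠ 0 → n • a = 0 → a = 0

theorem functional {A : Type} [AddCommGroup A] (hA : TorsionFree A) {x : A} (hx : x ≠ 0) :
    ∃ f : A →+ ℚ, f x ≠ 0 := by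
  have hinj : Function.Injective (zmultiplesHom A x) := by
    rw [injective_iff_map_eq_zero]
    intro n hn
    have h1 : n • x = 0 := hn
    by_contra h2
    rcases Int.natAbs_eq n with h3 | h3
    · rw [h3, natCast_zsmul] at h1
      exact hx (hA _ _ (Int.natAbs_ne_zero.2 h2) h1)
    · rw [h3, neg_zsmul, natCast_zsmul, neg_eq_zero] at h1
      exact hx (hA _ _ (Int.natAbs_ne_zero.2 h2) h1)
  obtain ⟨f, hf⟩ := (Module.Baer.of_divisible ℚ).extension_property_addMonoidHom
    (zmultiplesHom A x) hinj (Int.castAddHom ℚ)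
  refine ⟨f, ?_⟩
  have h1 : f (zmultiplesHom A x 1) = (1 : ℚ) := by
    have := DFunLike.congr_fun hf (1 : ℤ)
    simpa using this
  have h2 : zmultiplesHom A x 1 = x := by simp
  rw [h2] at h1
  rw [h1]
  exact one_ne_zero

theorem torsionFree_of_rat {D E : Word}
    (h : ∀ n (v : Word → ℚ), IsInvariant v → DegreeLE n v → v D = v E) {A : Type} [AddCommGroup A]
    (hA : TorsionFree A) (n : ℕ) (v : Word → A) (hv : IsInvariant v) (hn : DegreeLE n v) :
    v D = v E := by
  by_contra h1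
  obtain ⟨f, hf⟩ := functional hA (sub_ne_zero.2 h1)
  refine hf ?_
  rw [map_sub, sub_eq_zero]
  exact h n (fun D => f (v D)) (fun D E hD hi => congrArg f (hv D E hD hi)) (degree_comp hn f)

/-! ### One invariant -/

theorem one_inv {ι : Type} [Finite ι] (k : ι → ℕ) (D : ∀ i, (Fin (k i) → ℤ) → Word)
    (hD : ∀ i, Fam (D i)) : ∃ (d : ℕ) (V : Word → ℝ), IsInvariant V ∧ DegreeLE d V ∧
      (∀ E E', ¬ Separated d E E' → V E = V E') ∧
      ∀ i j q q', V (D i q) = V (D j q') →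
        ∀ n (v : Word → ℚ), IsInvariant v → DegreeLE n v → v (D i q) = v (D j q') := by
  classical
  have : Fintype ι := Fintype.ofFinite ι
  choose T hT hT' using fun p : ι × ι => fin_pair (hD p.1) (hD p.2)
  obtain ⟨d, V, h1, h2, h3, h4⟩ := combine (Finset.univ.biUnion T) (fun v hv => by
    obtain ⟨p, _, hp⟩ := Finset.mem_biUnion.1 hv
    exact hT p v hp)
  refine ⟨d, V, h1, h2, fun E E' h => ?_, fun i j q q' h => ?_⟩
  · refine (h4 E E').2 fun v hv => ?_
    by_contra h5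
    obtain ⟨p, _, hp⟩ := Finset.mem_biUnion.1 hv
    exact h ⟨v, (hT p v hp).1, h3 v hv, h5⟩
  · refine hT' (i, j) q q' fun v hv => (h4 _ _).1 h v ?_
    exact Finset.mem_biUnion.2 ⟨(i, j), Finset.mem_univ _, hv⟩

end Pool.Agent.N518.VL
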