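import Pool.Agent.N518.VL.One

/-!
# Diagrams of bounded power length
-/

set_option autoImplicit false

namespace Pool.Agent.N518.VL

open Pool.Agent.H835R2 Pool.Agent.H835R2.Knot Pool.Agent.H835R2.Flat Pool.Agent.Y466
  Pool.Agent.Y466.FT

/-- The length of the description `u₀ w₁^{*} u₁ ⋯ w_k^{*} u_k`: the number of the places plus the
lengths of all the words. -/
def plen {k : ℕ} (u₀ : Word) (w : Fin k → Braid) (u : Fin k → Word) : ℕ :=
  u₀.length + ∑ j, ((w j).length + (u j).length + 1)

/-- The diagram can be written as `u₀ w₁^{q₁} u₁ ⋯ w_k^{q_k} u_k` with a description of length at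
most `t` and arbitrary exponents `q₁, …, q_k ∈ ℤ`. -/
def PowLen (t : ℕ) (D : Word) : Prop :=
  ∃ (k : ℕ) (u₀ : Word) (w : Fin k → Braid) (u : Fin k → Word) (q : Fin k → ℤ),
    plen u₀ w u ≤ t ∧ D = family u₀ w u q

/-! ### Maxima -/

/-- Is the piece a maximum? -/
def isBirth : Piece → Bool
  | .birth _ _ => true
  | _ => false

theorem wdt_le (w : Word) (n : ℕ) : wdt w n ≤ n + 2 * w.countP isBirth := by
  induction w generalizing n with
  | nil => simp [wdt]
  | cons p w ih =>
    cases p with
    | birth i b =>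
      rw [List.countP_cons_of_pos (by rfl)]
      have := ih (n + 2)
      show wdt w (n + 2) ≤ _
      omega
    | death i =>
      rw [List.countP_cons_of_neg (by simp [isBirth])]
      have := ih (n - 2)
      show wdt w (n - 2) ≤ _
      omega
    | pos i =>
      rw [List.countP_cons_of_neg (by simp [isBirth])]
      exact ih n
    | neg i =>
      rw [List.countP_cons_of_neg (by simp [isBirth])]
      exact ih n

theorem fits_index (D : Word) (F : Front) (h : Knot.Fits D F) :
    ∀ p ∈ D, p.index ≤ F.n + 2 * D.countP isBirth := by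
  induction D generalizing F with
  | nil => intro p hp; exact absurd hp (by simp)
  | cons x D ih =>
    obtain ⟨h1, h2⟩ := h
    intro p hp
    rcases List.mem_cons.1 hp with rfl | hp'
    · have : p.index ≤ F.n := by
        cases p with
        | birth i b => exact h1
        | death i => have := h1.1; show i ≤ F.n; omega
        | pos i => have : i + 2 ≤ F.n := h1; show i ≤ F.n; omega
        | neg i => have : i + 2 ≤ F.n := h1; show i ≤ F.n; omega
      omega
    · have := ih (x.act F) h2 p hp'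
      cases x with
      | birth i b =>
        rw [List.countP_cons_of_pos (by rfl)]
        have e : (Piece.act (.birth i b) F).n = F.n + 2 := rfl
        omega
      | death i =>
        rw [List.countP_cons_of_neg (by simp [isBirth])]
        have e : (Piece.act (.death i) F).n = F.n - 2 := rfl
        omega
      | pos i =>
        rw [List.countP_cons_of_neg (by simp [isBirth])]
        exact this
      | neg i =>
        rw [List.countP_cons_of_neg (by simp [isBirth])]
        exact this

theorem births_draw (w : Braid) : (draw w).countP isBirth = 0 := by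
  rw [List.countP_eq_zero]
  intro p hp
  obtain ⟨⟨b, i⟩, _, rfl⟩ := List.mem_map.1 hp
  cases b <;> simp [piece, isBirth]

section
variable {k : ℕ} {u₀ : Word} {w : Fin k → Braid} {u : Fin k → Word}

theorem births_family (q : Fin k → ℤ) : (family u₀ w u q).countP isBirth ≤ plen u₀ w u := by
  unfold family plen
  rw [List.countP_append, List.countP_flatten, List.map_ofFn, List.sum_ofFn]
  refine Nat.add_le_add List.countP_le_length (Finset.sum_le_sum fun j _ => ?_)
  show (draw (pow (w j) (q j)) ++ u j).countP isBirth ≤ _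
  rw [List.countP_append, births_draw]
  have := List.countP_le_length (p := isBirth) (l := u j)
  omega

theorem wd_le (j : Fin k) : wd u₀ u j ≤ 2 * plen u₀ w u := by
  unfold FT.wd
  refine (wdt_le _ 0).trans ?_
  rw [zero_add]
  refine Nat.mul_le_mul_left 2 ?_
  unfold plen
  rw [List.countP_append]
  refine Nat.add_le_add List.countP_le_length ?_
  refine (List.countP_le_length).trans ?_
  have h1 : ((List.ofFn u).take j).flatten.length ≤ (List.ofFn u).flatten.length :=
    ((List.take_sublist _ _).flatten).length_le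
  refine h1.trans ?_
  rw [List.length_flatten, List.map_ofFn, List.sum_ofFn]
  refine Finset.sum_le_sum fun j _ => ?_
  show (u j).length ≤ _
  omega

theorem length_fitw (j : Fin k) : (fitw u₀ w u j).length ≤ (w j).length := by
  unfold fitw
  split_ifs
  · exact le_rfl
  · simp

theorem plen_fitw : plen u₀ (fitw u₀ w u) u ≤ plen u₀ w u := by
  unfold plen
  refine Nat.add_le_add_left (Finset.sum_le_sum fun j _ => ?_) _
  have := length_fitw (u₀ := u₀) (w := w) (u := u) j
  omega

end

/-! ### Finitely many descriptions -/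

theorem finite_lists {α : Type} {S : Set α} (hS : S.Finite) (n : ℕ) :
    {l : List α | l.length ≤ n ∧ ∀ x ∈ l, x ∈ S}.Finite := by
  have := hS.to_subtype
  refine ((List.finite_length_le S n).image (List.map Subtype.val)).subset ?_
  rintro l ⟨h1, h2⟩
  lift l to List S using h2
  exact ⟨l, by simpa using h1, rfl⟩

theorem finite_pieces (N : ℕ) : {p : Piece | p.index ≤ N}.Finite := by
  have h1 : (Set.Iic N).Finite := Set.finite_Iic N
  refine ((((h1.prod (Set.finite_univ (α := Bool))).image fun x => Piece.birth x.1 x.2).union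
    (h1.image Piece.death)).union ((h1.image Piece.pos).union (h1.image Piece.neg))).subset ?_
  intro p hp
  cases p with
  | birth i b => exact Or.inl (Or.inl ⟨(i, b), ⟨hp, trivial⟩, rfl⟩)
  | death i => exact Or.inl (Or.inr ⟨i, hp, rfl⟩)
  | pos i => exact Or.inr (Or.inl ⟨i, hp, rfl⟩)
  | neg i => exact Or.inr (Or.inr ⟨i, hp, rfl⟩)

/-- Descriptions. -/
abbrev Des : Type := Σ k : ℕ, Word × (Fin k → Braid) × (Fin k → Word)

/-- The descriptions of length at most `t` with letters at most `N`. -/
def bounded (t N : ℕ) : Set Des :=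
  {P | plen P.2.1 P.2.2.1 P.2.2.2 ≤ t ∧ (∀ p ∈ P.2.1, p.index ≤ N) ∧
    (∀ j, ∀ p ∈ P.2.2.2 j, p.index ≤ N) ∧ ∀ j, ∀ l ∈ P.2.2.1 j, l.2 ≤ N}

theorem finite_bounded (t N : ℕ) : (bounded t N).Finite := by
  have hA := finite_lists (finite_pieces N) t
  have hB : {l : Braid | l.length ≤ t ∧ ∀ x ∈ l, x ∈ {y : Bool × ℕ | y.2 ≤ N}}.Finite :=
    finite_lists (((Set.finite_univ (α := Bool)).prod (Set.finite_Iic N)).subset
      (fun y hy => ⟨trivial, hy⟩)) t
  refine (Set.Finite.biUnion (Set.finite_Iic t) (fun k _ =>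
    ((hA.prod ((Set.Finite.pi fun _ : Fin k => hB).prod (Set.Finite.pi fun _ : Fin k => hA))).image
      fun x => (⟨k, x⟩ : Des)))).subset ?_
  rintro ⟨k, u₀, w, u⟩ ⟨h1, h2, h3, h4⟩
  simp only at h1 h2 h3 h4
  have e1 : u₀.length ≤ t := by unfold plen at h1; omega
  have e2 : ∑ j, ((w j).length + (u j).length + 1) ≤ t := by unfold plen at h1; omega
  have e3 : ∀ j, (w j).length + (u j).length + 1 ≤ t := fun j =>
    (Finset.single_le_sum (f := fun j => (w j).length + (u j).length + 1)
      (fun _ _ => Nat.zero_le _) (Finset.mem_univ j)).trans e2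
  have e4 : k ≤ t := by
    have h5 : ∑ j : Fin k, 1 ≤ ∑ j, ((w j).length + (u j).length + 1) :=
      Finset.sum_le_sum fun j _ => by omega
    simp only [Finset.sum_const, Finset.card_univ, Fintype.card_fin, smul_eq_mul, mul_one] at h5
    omega
  refine Set.mem_biUnion (show k ∈ Set.Iic t from e4) ⟨(u₀, w, u), ⟨⟨e1, h2⟩, ?_, ?_⟩, rfl⟩
  · rw [Set.mem_univ_pi]
    exact fun j => ⟨by have := e3 j; show (w j).length ≤ t; omega, h4 j⟩
  · rw [Set.mem_univ_pi]
    exact fun j => ⟨by have := e3 j; show (u j).length ≤ t; omega, h3 j⟩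

/-- Every knot diagram of bounded power length has a bounded description. -/
theorem exists_bounded {t : ℕ} {D : Word} (hD : IsKnot D) (h : PowLen t D) :
    ∃ P ∈ bounded t (2 * t), ∃ q : Fin P.1 → ℤ, D = family P.2.1 P.2.2.1 P.2.2.2 q ∧
      ∀ j, ∀ l ∈ P.2.2.1 j, l.2 + 1 < wd P.2.1 P.2.2.2 j := by
  obtain ⟨k, u₀, w, u, q, h1, rfl⟩ := h
  have h2 := fits_index _ _ hD.1.1
  have h3 : ∀ p ∈ family u₀ w u q, p.index ≤ 2 * t := by
    intro p hp
    have h4 := h2 p hp
    have h5 := births_family (u₀ := u₀) (w := w) (u := u) q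
    have e : Front.empty.n = 0 := rfl
    omega
  refine ⟨⟨k, u₀, fitw u₀ w u, u⟩, ⟨plen_fitw.trans h1, fun p hp => ?_, fun j p hp => ?_,
    fun j l hl => ?_⟩, q, family_fit hD, fitw_fits⟩
  · exact h3 p (List.mem_append_left _ hp)
  · refine h3 p (List.mem_append_right _ ?_)
    refine List.mem_flatten.2 ⟨_, (List.mem_ofFn' _ _).2 ⟨j, rfl⟩, ?_⟩
    exact List.mem_append_right _ hp
  · have h4 := fitw_fits (u₀ := u₀) (w := w) (u := u) j l hl
    have h5 := wd_le (u₀ := u₀) (w := w) (u := u) j
    show l.2 ≤ 2 * t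
    omega

/-- The modulus. -/
def modulus (t : ℕ) : ℕ := (2 * t + 2).factorial

theorem modulus_pos (t : ℕ) : 0 < modulus t := Nat.factorial_pos _

theorem perm_modulus {t : ℕ} {P : Des} (hP : P ∈ bounded t (2 * t)) (j : Fin P.1) :
    perm (P.2.2.1 j) ^ modulus t = 1 :=
  perm_pow_one fun l hl => by have := hP.2.2.2 j l hl; omega

/-- The exponents as members of a residue class. -/
theorem exists_cls {k : ℕ} (r : ℕ) (hr : 0 < r) (q : Fin k → ℤ) :
    ∃ (s : Fin k → Fin r) (p : Fin k → ℤ), cls r (fun j => ((s j : ℕ) : ℤ)) p = q := by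
  have hr' : (r : ℤ) ≠ 0 := by exact_mod_cast hr.ne'
  have h0 : ∀ j, 0 ≤ q j % r := fun j => Int.emod_nonneg _ hr'
  have h1 : ∀ j, q j % r < r := fun j => Int.emod_lt_of_pos _ (by exact_mod_cast hr)
  refine ⟨fun j => ⟨(q j % r).toNat, by have := h0 j; have := h1 j; omega⟩, fun j => q j / r, ?_⟩
  funext j
  unfold cls
  simp only [Int.toNat_of_nonneg (h0 j)]
  exact Int.mul_ediv_add_emod (q j) r

/-- **One real valued Vassiliev invariant** for all knots of bounded power length. -/
theorem one_pow (t : ℕ) : ∃ (d : ℕ) (V : Word → ℝ), IsInvariant V ∧ DegreeLE d V ∧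
    (∀ E E', ¬ Separated d E E' → V E = V E') ∧
    ∀ D E, IsKnot D → IsKnot E → PowLen t D → PowLen t E → V D = V E →
      ∀ n (v : Word → ℚ), IsInvariant v → DegreeLE n v → v D = v E := by
  have hfin := (finite_bounded t (2 * t)).to_subtype
  set ι : Type := Σ P : bounded t (2 * t), {s : Fin P.1.1 → Fin (modulus t) //
    (∀ j, ∀ l ∈ P.1.2.2.1 j, l.2 + 1 < wd P.1.2.1 P.1.2.2.2 j) ∧
    ∃ q, IsKnot (family P.1.2.1 P.1.2.2.1 P.1.2.2.2 (cls (modulus t) (fun j => ((s j : ℕ) : ℤ)) q))}
    with hι
  have hfin' : Finite ι := inferInstance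
  obtain ⟨d, V, h1, h2, h3, h4⟩ := one_inv (ι := ι) (fun i => i.1.1.1)
    (fun i q => family i.1.1.2.1 i.1.1.2.2.1 i.1.1.2.2.2
      (cls (modulus t) (fun j => ((i.2.1 j : ℕ) : ℤ)) q))
    (fun i => by
      obtain ⟨⟨P, hP⟩, s, hs, q, hq⟩ := i
      exact fam_res hs (perm_modulus hP) hq)
  refine ⟨d, V, h1, h2, h3, fun D E hD hE hD' hE' h => ?_⟩
  have key : ∀ D, IsKnot D → PowLen t D → ∃ (i : ι) (q : Fin i.1.1.1 → ℤ), D =
      family i.1.1.2.1 i.1.1.2.2.1 i.1.1.2.2.2
        (cls (modulus t) (fun j => ((i.2.1 j : ℕ) : ℤ)) q) := by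
    intro D hD hD'
    obtain ⟨P, hP, q, rfl, hl⟩ := exists_bounded hD hD'
    obtain ⟨s, p, hs⟩ := exists_cls (modulus t) (modulus_pos t) q
    exact ⟨⟨⟨P, hP⟩, s, hl, p, by rw [hs]; exact hD⟩, p, by simp only [hs]⟩
  obtain ⟨i, q, rfl⟩ := key D hD hD'
  obtain ⟨j, q', rfl⟩ := key E hE hE'
  exact h4 i j q q' h

end Pool.Agent.N518.VL
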